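import Mathlib

set_option autoImplicit false

/-!
# Group theory: two doubly transitive actions of a group, one of degree six
-/

namespace Pool.Agent.Lib.MP_4dd1f4_al

open MulAction

universe u v w

theorem perm_apply_inv {P : Type u} (e : Equiv.Perm P) (x : P) : e (e⁻¹ x) = x :=
  e.apply_symm_apply x

theorem perm_inv_apply {P : Type u} (e : Equiv.Perm P) (x : P) : e⁻¹ (e x) = x :=
  e.symm_apply_apply x

/-- The action of `T` on `Ω` is transitive on ordered pairs of distinct points. -/
def TwoTrans (T : Type u) (Ω : Type v) [Group T] [MulAction T Ω] : Prop :=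
  ∀ a b a' b' : Ω, a ≠ b → a' ≠ b' → ∃ t : T, t • a = a' ∧ t • b = b'

section Basic

variable {T : Type u} {Ω : Type v} [Group T] [MulAction T Ω]

theorem TwoTrans.trans (h : TwoTrans T Ω) (hne : ∃ a b : Ω, a ≠ b) (a b : Ω) :
    ∃ t : T, t • a = b := by
  obtain ⟨c, d, hcd⟩ := hne
  obtain ⟨a', ha'⟩ : ∃ a', a' ≠ a := by
    by_cases hc : c = a
    · exact ⟨d, fun hd => hcd (by rw [hc, hd])⟩
    · exact ⟨c, hc⟩
  obtain ⟨b', hb'⟩ : ∃ b', b' ≠ b := by
    by_cases hc : c = b
    · exact ⟨d, fun hd => hcd (by rw [hc, hd])⟩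
    · exact ⟨c, hc⟩
  obtain ⟨t, ht, -⟩ := h a a' b b' ha'.symm hb'.symm
  exact ⟨t, ht⟩

/-- A normal subgroup of a doubly transitive group acting nontrivially is transitive. -/
theorem normal_trans (h : TwoTrans T Ω) (L : Subgroup T) [L.Normal] {l : T} (hl : l ∈ L) {a : Ω}
    (hla : l • a ≠ a) (b c : Ω) : ∃ l' ∈ L, l' • b = c := by
  by_cases hbc : b = c
  · exact ⟨1, L.one_mem, by rw [one_smul, hbc]⟩
  · obtain ⟨t, ht1, ht2⟩ := h a (l • a) b c hla.symm hbc
    refine ⟨t * l * t⁻¹, Subgroup.Normal.conj_mem inferInstance l hl t, ?_⟩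
    rw [mul_smul, mul_smul, ← ht1, inv_smul_smul, ht2]

/-- The pointwise stabilizer of two points. -/
def pairStab (T : Type u) {Ω : Type v} [Group T] [MulAction T Ω] (a b : Ω) : Subgroup T :=
  stabilizer T a ⊓ stabilizer T b

theorem mem_pairStab {a b : Ω} {t : T} : t ∈ pairStab T a b ↔ t • a = a ∧ t • b = b := by
  rw [pairStab, Subgroup.mem_inf, mem_stabilizer_iff, mem_stabilizer_iff]

theorem card_eq_stab (a : Ω) (htr : ∀ b : Ω, ∃ t : T, t • a = b) :
    Nat.card T = Nat.card Ω * Nat.card (stabilizer T a) := by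
  rw [← Nat.card_congr (orbitProdStabilizerEquivGroup T a), Nat.card_prod]
  congr 1
  have : orbit T a = Set.univ := by
    rw [Set.eq_univ_iff_forall]
    intro b
    obtain ⟨t, ht⟩ := htr b
    exact ⟨t, ht⟩
  rw [this, Nat.card_univ]

theorem card_eq_pairStab [Finite Ω] (h : TwoTrans T Ω) {a b : Ω} (hab : a ≠ b) :
    Nat.card T = Nat.card Ω * (Nat.card Ω - 1) * Nat.card (pairStab T a b) := by
  classical
  have : Fintype Ω := Fintype.ofFinite Ω
  rw [← Nat.card_congr (orbitProdStabilizerEquivGroup T (a, b)), Nat.card_prod]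
  congr 1
  · have h1 : orbit T (a, b) = ((Finset.univ : Finset Ω).offDiag : Set (Ω × Ω)) := by
      ext ⟨c, d⟩
      constructor
      · rintro ⟨t, ht⟩
        have h1 : t • a = c := congrArg Prod.fst ht
        have h2 : t • b = d := congrArg Prod.snd ht
        simp only [Finset.coe_offDiag, Finset.coe_univ, Set.mem_offDiag, Set.mem_univ, true_and]
        rw [← h1, ← h2]
        exact fun h3 => hab (smul_left_cancel t h3)
      · intro hcd
        simp only [Finset.coe_offDiag, Finset.coe_univ, Set.mem_offDiag, Set.mem_univ,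
          true_and] at hcd
        obtain ⟨t, ht1, ht2⟩ := h a b c d hab hcd
        exact ⟨t, Prod.ext ht1 ht2⟩
    rw [h1, Nat.card_eq_fintype_card, Nat.card_eq_fintype_card]
    simp only [Finset.coe_sort_coe, Fintype.card_coe, Finset.offDiag_card, Finset.card_univ]
    rw [Nat.mul_sub, mul_one]
  · apply Nat.card_congr
    refine Equiv.subtypeEquivRight ?_
    intro t
    rw [mem_pairStab, mem_stabilizer_iff]
    constructor
    · intro ht
      exact ⟨congrArg Prod.fst ht, congrArg Prod.snd ht⟩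
    · rintro ⟨h1, h2⟩
      exact Prod.ext h1 h2

end Basic

section FixedPoints

variable {T : Type u} {Δ : Type v} [Group T] [MulAction T Δ]

/-- The set of common fixed points of the two-point stabilizer. -/
def fixSet (T : Type u) {Δ : Type v} [Group T] [MulAction T Δ] (x y : Δ) : Set Δ :=
  {w | ∀ t ∈ pairStab T x y, t • w = w}

theorem left_mem_fixSet (x y : Δ) : x ∈ fixSet T x y := fun _ ht => (mem_pairStab.1 ht).1

theorem right_mem_fixSet (x y : Δ) : y ∈ fixSet T x y := fun _ ht => (mem_pairStab.1 ht).2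

/-- The setwise stabilizer of `fixSet T x y`. -/
def setStab (T : Type u) {Δ : Type v} [Group T] [MulAction T Δ] (x y : Δ) : Subgroup T where
  carrier := {t | ∀ w, t • w ∈ fixSet T x y ↔ w ∈ fixSet T x y}
  mul_mem' := by
    intro s t hs ht w
    rw [mul_smul, hs, ht]
  one_mem' := by
    intro w
    rw [one_smul]
  inv_mem' := by
    intro s hs w
    rw [← hs (s⁻¹ • w), smul_inv_smul]

instance (x y : Δ) : MulAction (setStab T x y) (fixSet T x y) where
  smul s w := ⟨(s : T) • (w : Δ), (s.2 w).2 w.2⟩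
  one_smul w := Subtype.ext (one_smul T (w : Δ))
  mul_smul s t w := Subtype.ext (mul_smul (s : T) (t : T) (w : Δ))

theorem setStab_smul_coe (x y : Δ) (s : setStab T x y) (w : fixSet T x y) :
    ((s • w : fixSet T x y) : Δ) = (s : T) • (w : Δ) := rfl

theorem pairStab_le_setStab (x y : Δ) : pairStab T x y ≤ setStab T x y := by
  intro t ht w
  constructor
  · intro h
    have h1 : t • w = w := by
      have h2 := h t⁻¹ (inv_mem ht)
      rw [inv_smul_smul] at h2
      exact h2.symm
    rwa [h1] at h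
  · intro h
    rwa [h t ht]

theorem card_pairStab_eq [Finite T] (h : TwoTrans T Δ) {a b c d : Δ} (hab : a ≠ b)
    (hcd : c ≠ d) : Nat.card (pairStab T a b) = Nat.card (pairStab T c d) := by
  obtain ⟨t, ht1, ht2⟩ := h a b c d hab hcd
  apply Nat.card_congr
  refine (MulAut.conj t).toEquiv.subtypeEquiv ?_
  intro s
  rw [mem_pairStab, mem_pairStab]
  simp only [MulEquiv.toEquiv_eq_coe, EquivLike.coe_coe, MulAut.conj_apply, mul_smul]
  rw [← ht1, ← ht2, inv_smul_smul, inv_smul_smul, smul_left_cancel_iff, smul_left_cancel_iff]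

theorem pairStab_eq_of_mem [Finite T] (h : TwoTrans T Δ) {x y a b : Δ} (hxy : x ≠ y)
    (hab : a ≠ b) (ha : a ∈ fixSet T x y) (hb : b ∈ fixSet T x y) :
    pairStab T a b = pairStab T x y := by
  symm
  apply Subgroup.eq_of_le_of_card_ge
  · intro t ht
    exact mem_pairStab.2 ⟨ha t ht, hb t ht⟩
  · rw [card_pairStab_eq h hab hxy]

theorem setStab_twoTrans [Finite T] (h : TwoTrans T Δ) {x y : Δ} (hxy : x ≠ y) :
    TwoTrans (setStab T x y) (fixSet T x y) := by
  rintro ⟨a, ha⟩ ⟨b, hb⟩ ⟨a', ha'⟩ ⟨b', hb'⟩ hab hab'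
  have hab1 : a ≠ b := fun h => hab (Subtype.ext h)
  have hab2 : a' ≠ b' := fun h => hab' (Subtype.ext h)
  obtain ⟨t, ht1, ht2⟩ := h a b a' b' hab1 hab2
  have e1 := pairStab_eq_of_mem h hxy hab1 ha hb
  have e2 := pairStab_eq_of_mem h hxy hab2 ha' hb'
  have hconj : ∀ s : T, t * s * t⁻¹ ∈ pairStab T x y ↔ s ∈ pairStab T x y := by
    intro s
    rw [← e2]
    nth_rewrite 2 [e2]
    rw [← e1, mem_pairStab, mem_pairStab, mul_smul, mul_smul, mul_smul, mul_smul, ← ht1, ← ht2,
      inv_smul_smul, inv_smul_smul, smul_left_cancel_iff, smul_left_cancel_iff]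
  have htS : t ∈ setStab T x y := by
    intro w
    constructor
    · intro hw s hs
      have h1 := hw _ ((hconj s).2 hs)
      rw [mul_smul, mul_smul, inv_smul_smul, smul_left_cancel_iff] at h1
      exact h1
    · intro hw s hs
      have h1 : t⁻¹ * s * t ∈ pairStab T x y := by
        rw [← hconj]
        have : t * (t⁻¹ * s * t) * t⁻¹ = s := by group
        rwa [this]
      have h2 := hw _ h1
      rw [mul_smul, mul_smul, inv_smul_eq_iff] at h2
      exact h2
  exact ⟨⟨t, htS⟩, Subtype.ext ht1, Subtype.ext ht2⟩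

theorem fixSet_dvd [Finite T] [Finite Δ] (h : TwoTrans T Δ) {x y : Δ} (hxy : x ≠ y) :
    Nat.card (fixSet T x y) * (Nat.card (fixSet T x y) - 1) ∣ Nat.card Δ * (Nat.card Δ - 1) ∧
    Nat.card (fixSet T x y) - 1 ∣ Nat.card Δ - 1 := by
  have hne : (⟨x, left_mem_fixSet x y⟩ : fixSet T x y) ≠ ⟨y, right_mem_fixSet x y⟩ :=
    fun h => hxy (congrArg Subtype.val h)
  have h2 := setStab_twoTrans h hxy
  have c1 := card_eq_pairStab h hxy
  have c2 := card_eq_pairStab h2 hne
  have c3 : Nat.card (pairStab (setStab T x y) (⟨x, left_mem_fixSet x y⟩ : fixSet T x y)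
      ⟨y, right_mem_fixSet x y⟩) = Nat.card (pairStab T x y) := by
    apply Nat.card_congr
    refine ⟨fun s => ⟨(s.1 : T), ?_⟩, fun s => ⟨⟨s.1, pairStab_le_setStab x y s.2⟩, ?_⟩, ?_, ?_⟩
    · have hs := mem_pairStab.1 s.2
      exact mem_pairStab.2 ⟨congrArg Subtype.val hs.1, congrArg Subtype.val hs.2⟩
    · have hs := mem_pairStab.1 s.2
      exact mem_pairStab.2 ⟨Subtype.ext hs.1, Subtype.ext hs.2⟩
    · intro s; rfl
    · intro s; rfl
  have hpos : 0 < Nat.card (pairStab T x y) := Nat.card_pos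
  rw [c3] at c2
  constructor
  · have hdvd : Nat.card (setStab T x y) ∣ Nat.card T := Subgroup.card_subgroup_dvd_card _
    rw [c1, c2] at hdvd
    exact Nat.dvd_of_mul_dvd_mul_right hpos hdvd
  · -- point stabilizers
    have t1 := card_eq_stab x (fun b => h.trans ⟨x, y, hxy⟩ x b)
    have t2 := card_eq_stab (T := setStab T x y) (⟨x, left_mem_fixSet x y⟩ : fixSet T x y)
      (fun b => h2.trans ⟨_, _, hne⟩ _ b)
    have hfpos : 0 < Nat.card (fixSet T x y) :=
      @Nat.card_pos _ ⟨⟨x, left_mem_fixSet x y⟩⟩ inferInstance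
    have hmpos : 0 < Nat.card Δ := @Nat.card_pos _ ⟨x⟩ inferInstance
    have s1 : Nat.card (stabilizer T x) = (Nat.card Δ - 1) * Nat.card (pairStab T x y) := by
      have : Nat.card Δ * Nat.card (stabilizer T x)
          = Nat.card Δ * ((Nat.card Δ - 1) * Nat.card (pairStab T x y)) := by
        rw [← t1, c1, mul_assoc]
      exact Nat.eq_of_mul_eq_mul_left hmpos this
    have s2 : Nat.card (stabilizer (setStab T x y)
        (⟨x, left_mem_fixSet x y⟩ : fixSet T x y))
        = (Nat.card (fixSet T x y) - 1) * Nat.card (pairStab T x y) := by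
      have : Nat.card (fixSet T x y) * Nat.card (stabilizer (setStab T x y)
          (⟨x, left_mem_fixSet x y⟩ : fixSet T x y))
          = Nat.card (fixSet T x y)
            * ((Nat.card (fixSet T x y) - 1) * Nat.card (pairStab T x y)) := by
        rw [← t2, c2, mul_assoc]
      exact Nat.eq_of_mul_eq_mul_left hfpos this
    have hdvd : Nat.card (stabilizer (setStab T x y)
        (⟨x, left_mem_fixSet x y⟩ : fixSet T x y)) ∣ Nat.card (stabilizer T x) := by
      let φ : stabilizer (setStab T x y) (⟨x, left_mem_fixSet x y⟩ : fixSet T x y)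
          →* stabilizer T x :=
        { toFun := fun s => ⟨(s.1 : T), by
            have := s.2
            rw [mem_stabilizer_iff] at this
            exact mem_stabilizer_iff.2 (congrArg Subtype.val this)⟩
          map_one' := rfl
          map_mul' := fun _ _ => rfl }
      have hφ : Function.Injective φ := by
        intro s t hst
        apply Subtype.ext
        apply Subtype.ext
        have h3 := congrArg (fun z : stabilizer T x => (z : T)) hst
        exact h3
      exact Subgroup.card_dvd_of_injective φ hφ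
    rw [s1, s2] at hdvd
    exact Nat.dvd_of_mul_dvd_mul_right hpos hdvd

end FixedPoints

section Sharp

variable {T : Type u} {Δ : Type v} [Group T] [MulAction T Δ]

/-- In a finite sharply doubly transitive group there is a nontrivial normal subgroup all of
whose nonidentity elements are conjugate. -/
theorem sharp_normal [Finite T] [Finite Δ] (h : TwoTrans T Δ) {x y : Δ} (hxy : x ≠ y)
    (hsharp : ∀ (t : T) (a b : Δ), a ≠ b → t • a = a → t • b = b → t = 1) :
    ∃ C : Subgroup T, C.Normal ∧ C ≠ ⊥ ∧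
      ∀ a ∈ C, ∀ b ∈ C, a ≠ 1 → b ≠ 1 → ∃ g : T, b = g * a * g⁻¹ := by
  classical
  have : Fintype T := Fintype.ofFinite T
  have : Fintype Δ := Fintype.ofFinite Δ
  set m := Nat.card Δ with hm
  have hmpos : 2 ≤ m := by
    rw [hm, Nat.card_eq_fintype_card]
    exact Fintype.one_lt_card_iff.2 ⟨x, y, hxy⟩
  have hU : Nat.card (pairStab T x y) = 1 := by
    rw [Nat.card_eq_one_iff_unique]
    refine ⟨⟨fun s t => ?_⟩, ⟨1⟩⟩
    have hs := mem_pairStab.1 s.2
    have ht := mem_pairStab.1 t.2
    apply Subtype.ext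
    rw [hsharp _ _ _ hxy hs.1 hs.2, hsharp _ _ _ hxy ht.1 ht.2]
  have hT : Nat.card T = m * (m - 1) := by
    rw [card_eq_pairStab h hxy, hU, mul_one]
  -- the set of fixed point free elements
  let F : Finset T := Finset.univ.filter fun t => ∀ w : Δ, t • w ≠ w
  let E : Finset T := Finset.univ.filter fun t => t ≠ 1 ∧ ∃ w : Δ, t • w = w
  -- stabilizers have order `m - 1`
  have hstab : ∀ w : Δ, Nat.card (stabilizer T w) = m - 1 := by
    intro w
    have h1 := card_eq_stab (T := T) w (fun b => h.trans ⟨x, y, hxy⟩ w b)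
    rw [hT] at h1
    exact (Nat.eq_of_mul_eq_mul_left (by omega) h1).symm
  have hE : E.card = m * (m - 2) := by
    have h1 : E = Finset.univ.biUnion
        (fun w : Δ => (Finset.univ.filter fun t : T => t • w = w).erase 1) := by
      ext t
      simp only [E, Finset.mem_filter, Finset.mem_univ, true_and, Finset.mem_biUnion,
        Finset.mem_erase]
      constructor
      · rintro ⟨h1, w, hw⟩
        exact ⟨w, h1, hw⟩
      · rintro ⟨w, h1, hw⟩
        exact ⟨h1, w, hw⟩
    have h0 : ∀ a ∈ (Finset.univ : Finset Δ), ∀ b ∈ (Finset.univ : Finset Δ), a ≠ b →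
        Disjoint ((Finset.univ.filter fun t : T => t • a = a).erase 1)
          ((Finset.univ.filter fun t : T => t • b = b).erase 1) := by
      intro a _ b _ hab
      rw [Finset.disjoint_left]
      intro t ht ht'
      simp only [Finset.mem_erase, Finset.mem_filter, Finset.mem_univ, true_and] at ht ht'
      exact ht.1 (hsharp t a b hab ht.2 ht'.2)
    rw [h1, Finset.card_biUnion h0]
    have h2 : ∀ w ∈ (Finset.univ : Finset Δ),
        ((Finset.univ.filter fun t : T => t • w = w).erase 1).card = m - 2 := by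
      intro w _
      rw [Finset.card_erase_of_mem (by simp)]
      have h3 : (Finset.univ.filter fun t : T => t • w = w).card
          = Nat.card (stabilizer T w) := by
        rw [Nat.card_eq_fintype_card, Fintype.card_subtype]
        rfl
      rw [h3, hstab]
      omega
    rw [Finset.sum_congr rfl h2, Finset.sum_const, Finset.card_univ, smul_eq_mul, hm,
      Nat.card_eq_fintype_card]
  have hFE : F.card + E.card + 1 = m * (m - 1) := by
    have h1 : (Finset.univ : Finset T) = insert 1 (F ∪ E) := by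
      ext t
      simp only [Finset.mem_univ, Finset.mem_insert, Finset.mem_union, true_iff, F, E,
        Finset.mem_filter, true_and]
      by_cases ht : t = 1
      · exact Or.inl ht
      · right
        by_cases h2 : ∃ w : Δ, t • w = w
        · exact Or.inr ⟨ht, h2⟩
        · push Not at h2
          exact Or.inl h2
    have h2 : Disjoint F E := by
      rw [Finset.disjoint_left]
      intro t ht ht'
      simp only [F, E, Finset.mem_filter, Finset.mem_univ, true_and] at ht ht'
      obtain ⟨-, w, hw⟩ := ht'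
      exact ht w hw
    have h3 : (1 : T) ∉ F ∪ E := by
      simp only [F, E, Finset.mem_union, Finset.mem_filter, Finset.mem_univ, true_and, one_smul,
        ne_eq, not_true_eq_false, false_and, or_false]
      exact fun h => h x
    have h4 := congrArg Finset.card h1
    rw [Finset.card_univ, Finset.card_insert_of_notMem h3, Finset.card_union_of_disjoint h2,
      ← Nat.card_eq_fintype_card, hT] at h4
    exact h4.symm
  have hFc : F.card = m - 1 := by
    have : m * (m - 1) = m * (m - 2) + m := by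
      obtain ⟨k, hk⟩ : ∃ k, m = k + 2 := ⟨m - 2, by omega⟩
      rw [hk]
      have e1 : k + 2 - 1 = k + 1 := by omega
      have e2 : k + 2 - 2 = k := by omega
      rw [e1, e2]; ring
    omega
  obtain ⟨v, hv⟩ : F.Nonempty := by
    rw [← Finset.card_pos]; omega
  have hvF : ∀ w : Δ, v • w ≠ w := by
    simpa [F] using hv
  -- the centralizer of `v`
  let C : Subgroup T := Subgroup.centralizer {v}
  have hCfree : ∀ c ∈ C, ∀ w : Δ, c • w = w → c = 1 := by
    intro c hc w hw
    have h1 : c * v = v * c := (Subgroup.mem_centralizer_singleton_iff.1 hc)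
    refine hsharp c w (v • w) (hvF w).symm hw ?_
    rw [← mul_smul, h1, mul_smul, hw]
  have hCle : Nat.card C ≤ m := by
    refine Nat.card_le_card_of_injective (fun c : C => (c : T) • x) ?_
    intro c d hcd
    have h1 : (c⁻¹ * d : C) = 1 := by
      apply Subtype.ext
      refine hCfree _ (c⁻¹ * d).2 x ?_
      change ((c : T)⁻¹ * (d : T)) • x = x
      rw [mul_smul, inv_smul_eq_iff]
      exact hcd.symm
    exact (inv_mul_eq_one.1 h1)
  -- conjugacy class of `v`
  have hclass : Nat.card (ConjClasses.mk v).carrier * Nat.card C = m * (m - 1) := by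
    rw [← hT, ← ConjAct.orbit_eq_carrier_conjClasses v]
    have h1 := Nat.card_congr (orbitProdStabilizerEquivGroup (ConjAct T) v)
    rw [Nat.card_prod] at h1
    have h2 : Nat.card (stabilizer (ConjAct T) v) = Nat.card C := by
      rw [ConjAct.stabilizer_eq_centralizer]
      rfl
    rw [h2] at h1
    rw [h1]
    rfl
  have hsub : (ConjClasses.mk v).carrier ⊆ (F : Set T) := by
    intro t ht
    rw [ConjClasses.mem_carrier_iff_mk_eq, ConjClasses.mk_eq_mk_iff_isConj, isConj_comm,
      isConj_iff] at ht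
    obtain ⟨g, hg⟩ := ht
    simp only [F, Finset.coe_filter, Finset.mem_univ, true_and, Set.mem_ofPred_eq]
    intro w hw
    rw [← hg, mul_smul, mul_smul] at hw
    apply hvF (g⁻¹ • w)
    rw [← smul_left_cancel_iff g, smul_inv_smul]
    exact hw
  have hclass_le : Nat.card (ConjClasses.mk v).carrier ≤ m - 1 := by
    rw [Nat.card_coe_set_eq, ← hFc, ← Set.ncard_coe_finset]
    exact Set.ncard_le_ncard hsub (Finset.finite_toSet F)
  have hCc : Nat.card C = m := by
    apply le_antisymm hCle
    by_contra hlt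
    push Not at hlt
    have h1 : Nat.card (ConjClasses.mk v).carrier * Nat.card C
        ≤ (m - 1) * (m - 1) := Nat.mul_le_mul hclass_le (by omega)
    rw [hclass] at h1
    have h2 : (m - 1) * (m - 1) < m * (m - 1) := Nat.mul_lt_mul_of_pos_right (by omega) (by omega)
    omega
  have hclassc : Nat.card (ConjClasses.mk v).carrier = m - 1 := by
    rw [hCc, mul_comm] at hclass
    exact Nat.eq_of_mul_eq_mul_left (by omega) hclass
  -- every fixed point free element is conjugate to `v`
  have hFconj : ∀ t ∈ F, ∃ g : T, t = g * v * g⁻¹ := by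
    have h1 : (ConjClasses.mk v).carrier = (F : Set T) := by
      apply Set.eq_of_subset_of_ncard_le hsub _ (Finset.finite_toSet F)
      rw [Set.ncard_coe_finset, hFc, ← hclassc, Nat.card_coe_set_eq]
    intro t ht
    have h2 : t ∈ (ConjClasses.mk v).carrier := by
      rw [h1]; exact ht
    rw [ConjClasses.mem_carrier_iff_mk_eq, ConjClasses.mk_eq_mk_iff_isConj, isConj_comm,
      isConj_iff] at h2
    obtain ⟨g, hg⟩ := h2
    exact ⟨g, hg.symm⟩
  -- nonidentity elements of `C` are the fixed point free elements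
  let C' : Finset T := (Finset.univ.filter fun t => t ∈ C).erase 1
  have hC'card : C'.card = m - 1 := by
    have h1 : (Finset.univ.filter fun t => t ∈ C).card = Nat.card C := by
      rw [Nat.card_eq_fintype_card, Fintype.card_subtype]
    rw [Finset.card_erase_of_mem (by simp [C.one_mem]), h1, hCc]
  have hC'F : C' ⊆ F := by
    intro t ht
    simp only [C', Finset.mem_erase, Finset.mem_filter, Finset.mem_univ, true_and] at ht
    simp only [F, Finset.mem_filter, Finset.mem_univ, true_and]
    intro w hw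
    exact ht.1 (hCfree t ht.2 w hw)
  have hC'eq : C' = F := Finset.eq_of_subset_of_card_le hC'F (by rw [hC'card, hFc])
  have hFconj' : ∀ t ∈ F, ∀ g : T, g * t * g⁻¹ ∈ F := by
    intro t ht g
    simp only [F, Finset.mem_filter, Finset.mem_univ, true_and] at ht ⊢
    intro w hw
    rw [mul_smul, mul_smul] at hw
    apply ht (g⁻¹ • w)
    rw [← smul_left_cancel_iff g, smul_inv_smul]
    exact hw
  have hmemF : ∀ c ∈ C, c ≠ 1 → c ∈ F := by
    intro c hc hc1
    rw [← hC'eq]
    simp only [C', Finset.mem_erase, Finset.mem_filter, Finset.mem_univ, true_and]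
    exact ⟨hc1, hc⟩
  refine ⟨C, ⟨fun c hc g => ?_⟩, ?_, ?_⟩
  · by_cases hc1 : c = 1
    · rw [hc1, mul_one, mul_inv_cancel]
      exact C.one_mem
    · have h1 := hFconj' c (hmemF c hc hc1) g
      rw [← hC'eq] at h1
      simp only [C', Finset.mem_erase, Finset.mem_filter, Finset.mem_univ, true_and] at h1
      exact h1.2
  · intro hbot
    have h1 : v ∈ C := Subgroup.mem_centralizer_singleton_iff.2 rfl
    rw [hbot, Subgroup.mem_bot] at h1
    apply hvF x
    rw [h1, one_smul]
  · intro a ha b hb ha1 hb1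
    obtain ⟨g, hg⟩ := hFconj a (hmemF a ha ha1)
    obtain ⟨g', hg'⟩ := hFconj b (hmemF b hb hb1)
    refine ⟨g' * g⁻¹, ?_⟩
    rw [hg, hg']
    group

end Sharp

section DegreeSix

/-- A normal subgroup acting nontrivially in a doubly transitive action of degree six contains
elements acting with order two and with order three. -/
theorem exists_order_two_three {N : Type u} {Ω : Type v} [Group N] [MulAction N Ω]
    (h6 : Nat.card Ω = 6) (h : TwoTrans N Ω) (L : Subgroup N) [L.Normal]
    (hL : ∃ l ∈ L, ∃ w : Ω, l • w ≠ w) :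
    (∃ a ∈ L, (∀ w : Ω, (a * a) • w = w) ∧ ∃ w : Ω, a • w ≠ w) ∧
    (∃ b ∈ L, (∀ w : Ω, (b * b * b) • w = w) ∧ ∃ w : Ω, b • w ≠ w) := by
  have hfin : Finite Ω := Nat.finite_of_card_ne_zero (by omega)
  obtain ⟨l, hl, w0, hlw⟩ := hL
  let Lb : Subgroup (Equiv.Perm Ω) := L.map (toPermHom N Ω)
  have htr : ∀ c : Ω, ∃ t : Lb, t • w0 = c := by
    intro c
    obtain ⟨l', hl', h1⟩ := normal_trans h L hl hlw w0 c
    exact ⟨⟨toPermHom N Ω l', Subgroup.mem_map_of_mem _ hl'⟩, h1⟩
  have hcard := card_eq_stab (T := Lb) w0 htr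
  rw [h6] at hcard
  have hfinLb : Finite Lb := inferInstance
  have h2 : 2 ∣ Nat.card Lb := ⟨3 * Nat.card (stabilizer Lb w0), by rw [hcard]; ring⟩
  have h3 : 3 ∣ Nat.card Lb := ⟨2 * Nat.card (stabilizer Lb w0), by rw [hcard]; ring⟩
  constructor
  · have : Fact (Nat.Prime 2) := ⟨Nat.prime_two⟩
    obtain ⟨⟨p, hp⟩, hpo⟩ := exists_prime_orderOf_dvd_card' 2 h2
    obtain ⟨a, ha, hap⟩ := Subgroup.mem_map.1 hp
    have hp2 : p * p = 1 := by
      have h4 := pow_orderOf_eq_one (⟨p, hp⟩ : Lb)
      rw [hpo, pow_two] at h4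
      exact congrArg Subtype.val h4
    refine ⟨a, ha, ?_, ?_⟩
    · intro w
      have h5 : toPermHom N Ω (a * a) w = w := by
        rw [map_mul, hap, hp2]; rfl
      exact h5
    · by_contra hcon
      push Not at hcon
      have h5 : p = 1 := by
        rw [← hap]
        ext w
        exact hcon w
      subst h5
      have h6' : orderOf (⟨1, hp⟩ : Lb) = 1 := orderOf_one
      rw [hpo] at h6'
      omega
  · have : Fact (Nat.Prime 3) := ⟨Nat.prime_three⟩
    obtain ⟨⟨p, hp⟩, hpo⟩ := exists_prime_orderOf_dvd_card' 3 h3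
    obtain ⟨a, ha, hap⟩ := Subgroup.mem_map.1 hp
    have hp2 : p * p * p = 1 := by
      have h4 := pow_orderOf_eq_one (⟨p, hp⟩ : Lb)
      rw [hpo, pow_succ, pow_two] at h4
      exact congrArg Subtype.val h4
    refine ⟨a, ha, ?_, ?_⟩
    · intro w
      have h5 : toPermHom N Ω (a * a * a) w = w := by
        rw [map_mul, map_mul, hap, hp2]; rfl
      exact h5
    · by_contra hcon
      push Not at hcon
      have h5 : p = 1 := by
        rw [← hap]
        ext w
        exact hcon w
      subst h5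
      have h6' : orderOf (⟨1, hp⟩ : Lb) = 1 := orderOf_one
      rw [hpo] at h6'
      omega

/-- If all elements of a normal subgroup `L` having a fixed point act trivially, then any two
elements of `L` acting nontrivially are conjugate modulo the kernel of the action. -/
theorem conj_of_semiregular {N : Type u} {Δ : Type v} [Group N] [MulAction N Δ]
    (h : TwoTrans N Δ) (L : Subgroup N) [L.Normal]
    (hreg : ∀ l ∈ L, ∀ w : Δ, l • w = w → ∀ w' : Δ, l • w' = w')
    {a b : N} (ha : a ∈ L) (hb : b ∈ L) (ha1 : ∃ w : Δ, a • w ≠ w) (hb1 : ∃ w : Δ, b • w ≠ w) :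
    ∃ g : N, ∀ w : Δ, b • w = (g * a * g⁻¹) • w := by
  obtain ⟨w, hw⟩ := ha1
  obtain ⟨w', hw'⟩ := hb1
  have hb2 : b • w ≠ w := fun h1 => hw' (hreg b hb w h1 w')
  obtain ⟨g, hg1, hg2⟩ := h w (a • w) w (b • w) hw.symm hb2.symm
  refine ⟨g, fun v => ?_⟩
  have h1 : (b⁻¹ * (g * a * g⁻¹)) • w = w := by
    have h2 : g⁻¹ • w = w := by rw [inv_smul_eq_iff, hg1]
    rw [mul_smul, mul_smul, mul_smul, h2, hg2, inv_smul_smul]
  have h2 : b⁻¹ * (g * a * g⁻¹) ∈ L :=
    L.mul_mem (L.inv_mem hb) (Subgroup.Normal.conj_mem inferInstance a ha g)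
  have h3 := hreg _ h2 w h1 v
  rw [mul_smul, inv_smul_eq_iff] at h3
  exact h3.symm

/-- A normal subgroup of a doubly transitive group of degree six which acts semiregularly
(modulo the kernel) acts trivially. -/
theorem no_semiregular {N : Type u} {Δ : Type v} [Group N] [MulAction N Δ]
    (h : TwoTrans N Δ) (L : Subgroup N) [L.Normal]
    (hreg : ∀ l ∈ L, ∀ w : Δ, l • w = w → ∀ w' : Δ, l • w' = w')
    {a b : N} (ha : a ∈ L) (hb : b ∈ L) (ha1 : ∃ w : Δ, a • w ≠ w) (hb1 : ∃ w : Δ, b • w ≠ w)
    (ha2 : ∀ w : Δ, (a * a) • w = w) (hb3 : ∀ w : Δ, (b * b * b) • w = w) : False := by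
  obtain ⟨g, hg⟩ := conj_of_semiregular h L hreg ha hb ha1 hb1
  have hb2 : ∀ w : Δ, (b * b) • w = w := by
    intro w
    rw [mul_smul, hg, hg, ← mul_smul]
    have : g * a * g⁻¹ * (g * a * g⁻¹) = g * (a * a) * g⁻¹ := by group
    rw [this, mul_smul, mul_smul, ha2, smul_inv_smul]
  obtain ⟨w, hw⟩ := hb1
  apply hw
  have h1 := hb3 w
  rw [mul_assoc, mul_smul, hb2] at h1
  exact h1

/-- If `5 ∤ |Δ|` then either `6 |Δ|` divides `|T|` or `6` divides `|Δ|`. -/
theorem six_dvd {T : Type u} {Ω : Type v} {Δ : Type w} [Group T] [Finite T] [MulAction T Ω]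
    [MulAction T Δ] [Finite Δ] (h6 : Nat.card Ω = 6) (hΩ : TwoTrans T Ω)
    (hfaith : ∀ t : T, (∀ w : Ω, t • w = w) → t = 1)
    (hΔ : TwoTrans T Δ) (hne : ∃ a b : Δ, a ≠ b)
    (h5 : 5 ∣ Nat.card T) (hm : ¬ 5 ∣ Nat.card Δ) :
    6 * Nat.card Δ ∣ Nat.card T ∨ 6 ∣ Nat.card Δ := by
  classical
  have hfin : Finite Ω := Nat.finite_of_card_ne_zero (by omega)
  have : Fintype Ω := Fintype.ofFinite Ω
  have : Fact (Nat.Prime 5) := ⟨Nat.prime_five⟩
  obtain ⟨g, hg⟩ := exists_prime_orderOf_dvd_card' 5 h5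
  have hgp : IsPGroup 5 (Subgroup.zpowers g) := by
    refine IsPGroup.of_card (n := 1) ?_
    rw [Nat.card_zpowers, hg, pow_one]
  -- fixed point on `Δ`
  have hfix := hgp.nonempty_fixed_point_of_prime_not_dvd_card Δ hm
  obtain ⟨x, hx⟩ := hfix
  have hgx : g • x = x := hx ⟨g, Subgroup.mem_zpowers g⟩
  let K : Subgroup T := stabilizer T x
  have hgK : g ∈ K := hgx
  have hK := card_eq_stab (T := T) x (fun b => hΔ.trans hne x b)
  -- a point of `Ω` moved by `g`
  obtain ⟨a, ha⟩ : ∃ a : Ω, g • a ≠ a := by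
    by_contra hcon
    push Not at hcon
    have := hfaith g hcon
    rw [this, orderOf_one] at hg
    omega
  -- the orbit of `a` under `g` has five elements
  have horb5 : Nat.card (orbit (Subgroup.zpowers g) a) = 5 := by
    have h1 : Nat.card (orbit (Subgroup.zpowers g) a) * Nat.card (stabilizer
        (Subgroup.zpowers g) a) = 5 := by
      rw [← Nat.card_prod, Nat.card_congr (orbitProdStabilizerEquivGroup (Subgroup.zpowers g) a),
        Nat.card_zpowers, hg]
    have h2 : Nat.card (orbit (Subgroup.zpowers g) a) ∣ 5 := ⟨_, h1.symm⟩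
    rcases (Nat.dvd_prime Nat.prime_five).1 h2 with h3 | h3
    · exfalso
      rw [Nat.card_eq_one_iff_unique] at h3
      obtain ⟨h3, -⟩ := h3
      apply ha
      have h4 : (⟨g • a, ⟨⟨g, Subgroup.mem_zpowers g⟩, rfl⟩⟩ : orbit (Subgroup.zpowers g) a)
          = ⟨a, mem_orbit_self a⟩ := Subsingleton.elim _ _
      exact congrArg Subtype.val h4
    · exact h3
  have hsub : orbit (Subgroup.zpowers g) a ⊆ orbit K a := by
    rintro _ ⟨⟨t, ht⟩, rfl⟩
    have htK : t ∈ K := (Subgroup.zpowers_le.2 hgK) ht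
    exact ⟨⟨t, htK⟩, rfl⟩
  have h5le : 5 ≤ (orbit K a).ncard := by
    rw [← horb5, Nat.card_coe_set_eq]
    exact Set.ncard_le_ncard hsub (Set.toFinite _)
  have h6le : (orbit K a).ncard ≤ 6 := by
    rw [← h6, ← Set.ncard_univ]
    exact Set.ncard_le_ncard (Set.subset_univ _) (Set.toFinite _)
  have hKcard : (orbit K a).ncard * Nat.card (stabilizer K a) = Nat.card K := by
    rw [← Nat.card_coe_set_eq, ← Nat.card_prod,
      Nat.card_congr (orbitProdStabilizerEquivGroup K a)]
  rcases Nat.lt_or_ge (orbit K a).ncard 6 with hlt | hge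
  · -- orbit of size five: `K` fixes a point of `Ω`
    right
    have h55 : (orbit K a).ncard = 5 := by omega
    have hcompl : ((orbit K a)ᶜ).ncard = 1 := by
      have h1 := Set.ncard_add_ncard_compl (orbit K a)
      rw [h6, h55] at h1
      omega
    obtain ⟨w, hw⟩ := Set.ncard_eq_one.1 hcompl
    have hKw : ∀ t ∈ K, t • w = w := by
      intro t ht
      have h1 : w ∈ (orbit K a)ᶜ := by rw [hw]; rfl
      have h2 : t • w ∈ (orbit K a)ᶜ := by
        intro h3
        apply h1
        obtain ⟨k, hk⟩ := h3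
        refine ⟨(⟨t, ht⟩ : K)⁻¹ * k, ?_⟩
        change ((⟨t, ht⟩ : K)⁻¹ * k) • a = w
        rw [mul_smul, inv_smul_eq_iff]
        exact hk
      rw [hw] at h2
      exact h2
    have hle : K ≤ stabilizer T w := fun t ht => hKw t ht
    obtain ⟨j, hj⟩ := Subgroup.card_dvd_of_le hle
    have hw6 := card_eq_stab (T := T) w
      (fun b => hΩ.trans ⟨a, g • a, ha.symm⟩ w b)
    rw [h6, hj, hK] at hw6
    have hKpos : 0 < Nat.card K := Nat.card_pos
    refine ⟨j, ?_⟩
    have : Nat.card Δ * Nat.card K = 6 * j * Nat.card K := by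
      rw [hw6]; ring
    exact Nat.eq_of_mul_eq_mul_right hKpos this
  · left
    have h66 : (orbit K a).ncard = 6 := by omega
    rw [h66] at hKcard
    refine ⟨Nat.card (stabilizer K a), ?_⟩
    rw [hK]
    change Nat.card Δ * Nat.card K = _
    rw [← hKcard]
    ring

/-- **Key lemma.** Let `T` act faithfully and doubly transitively on a set `Ω` with six elements
and on a set `Δ`. Then a permutation of `Δ` fixing a point `x` and commuting with the stabilizer
of `x` is trivial. -/
theorem key {T : Type u} {Ω : Type v} {Δ : Type w} [Group T] [MulAction T Ω]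
    [MulAction T Δ] (h6 : Nat.card Ω = 6) (hΩ : TwoTrans T Ω)
    (hfaith : ∀ t : T, (∀ w : Ω, t • w = w) → t = 1)
    (hΔ : TwoTrans T Δ) (hfaith' : ∀ t : T, (∀ w : Δ, t • w = w) → t = 1)
    (x : Δ) (z : Equiv.Perm Δ) (hzx : z x = x)
    (hz : ∀ t : T, t • x = x → ∀ w, z (t • w) = t • z w) (y : Δ) : z y = y := by
  classical
  by_contra hzy
  have hxy : x ≠ y := by
    rintro rfl
    exact hzy hzx
  have hzyx : z y ≠ x := by
    intro h
    apply hxy
    apply z.injective
    rw [hzx, h]
  have hfinΩ : Finite Ω := Nat.finite_of_card_ne_zero (by omega)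
  have hinj : Function.Injective (toPermHom T Ω) := by
    rw [injective_iff_map_eq_one]
    intro t ht
    apply hfaith
    intro w
    have := congrArg (fun p : Equiv.Perm Ω => p w) ht
    exact this
  have hfinT : Finite T := Finite.of_injective _ hinj
  have hfinΔ : Finite Δ := by
    have : Function.Surjective (fun t : T => t • x) := fun b => hΔ.trans ⟨x, y, hxy⟩ x b
    exact Finite.of_surjective _ this
  have hdvd720 : Nat.card T ∣ 720 := by
    have h1 := Subgroup.card_dvd_of_injective (toPermHom T Ω) hinj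
    rw [Nat.card_perm, h6] at h1
    exact h1
  obtain ⟨a, b, hab⟩ : ∃ a b : Ω, a ≠ b := by
    have : Nontrivial Ω := by
      rw [← Finite.one_lt_card_iff_nontrivial]; omega
    exact exists_pair_ne Ω
  have hT30 := card_eq_pairStab hΩ hab
  rw [h6] at hT30
  have hTm := card_eq_pairStab hΔ hxy
  have hdvd := fixSet_dvd hΔ hxy
  -- `f ≥ 3`
  have hzyfix : z y ∈ fixSet T x y := by
    intro t ht
    obtain ⟨h1, h2⟩ := mem_pairStab.1 ht
    rw [← hz t h1, h2]
  have hf3 : 3 ≤ Nat.card (fixSet T x y) := by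
    rw [Nat.card_coe_set_eq]
    have h1 : ({x, y, z y} : Set Δ) ⊆ fixSet T x y := by
      intro w hw
      rcases hw with rfl | rfl | rfl
      · exact left_mem_fixSet _ _
      · exact right_mem_fixSet _ _
      · exact hzyfix
    have h2 : ({x, y, z y} : Set Δ).ncard = 3 := by
      rw [Set.ncard_eq_three]
      exact ⟨x, y, z y, hxy, hzyx.symm, fun h => hzy h.symm, rfl⟩
    rw [← h2]
    exact Set.ncard_le_ncard h1 (Set.toFinite _)
  -- the two-point stabilizer is nontrivial
  have hUne : ∃ t ∈ pairStab T x y, t ≠ 1 := by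
    by_contra hcon
    push Not at hcon
    have hsharp : ∀ (t : T) (a b : Δ), a ≠ b → t • a = a → t • b = b → t = 1 := by
      intro t a b hab hta htb
      obtain ⟨s, hs1, hs2⟩ := hΔ a b x y hab hxy
      have h1 : s * t * s⁻¹ = 1 := by
        apply hcon
        rw [mem_pairStab, mul_smul, mul_smul, mul_smul, mul_smul, ← hs1, ← hs2,
          inv_smul_smul, inv_smul_smul, hta, htb]
        exact ⟨rfl, rfl⟩
      have h2 : t = s⁻¹ * (s * t * s⁻¹) * s := by group
      rw [h2, h1]
      group
    obtain ⟨C, hCn, hCb, hCconj⟩ := sharp_normal hΔ hxy hsharp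
    have hex : ∃ l ∈ C, ∃ w : Ω, l • w ≠ w := by
      obtain ⟨⟨l, hl⟩, hl1'⟩ := Subgroup.ne_bot_iff_exists_ne_one.1 hCb
      have hl1 : l ≠ 1 := fun h => hl1' (Subtype.ext h)
      refine ⟨l, hl, ?_⟩
      by_contra hcon2
      push Not at hcon2
      exact hl1 (hfaith l hcon2)
    obtain ⟨⟨a2, ha2, ha2', w2, hw2⟩, ⟨a3, ha3, ha3', w3, hw3⟩⟩ :=
      exists_order_two_three h6 hΩ C hex
    have ha2one : a2 * a2 = 1 := hfaith _ ha2'
    have ha3one : a3 * a3 * a3 = 1 := hfaith _ ha3'
    have ha2ne : a2 ≠ 1 := by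
      rintro rfl
      exact hw2 (one_smul _ _)
    have ha3ne : a3 ≠ 1 := by
      rintro rfl
      exact hw3 (one_smul _ _)
    obtain ⟨g, hg⟩ := hCconj a2 ha2 a3 ha3 ha2ne ha3ne
    have h1 : a3 * a3 = 1 := by
      rw [hg]
      have : g * a2 * g⁻¹ * (g * a2 * g⁻¹) = g * (a2 * a2) * g⁻¹ := by group
      rw [this, ha2one]
      group
    rw [h1, one_mul] at ha3one
    exact ha3ne ha3one
  obtain ⟨t0, ht0, ht0ne⟩ := hUne
  have hu2 : 2 ≤ Nat.card (pairStab T x y) := by
    have : Nontrivial (pairStab T x y) :=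
      ⟨⟨⟨t0, ht0⟩, 1, fun h => ht0ne (congrArg Subtype.val h)⟩⟩
    exact Finite.one_lt_card_iff_nontrivial.2 this
  -- `f + 2 ≤ m`
  have hfm : Nat.card (fixSet T x y) + 2 ≤ Nat.card Δ := by
    obtain ⟨w, hw⟩ : ∃ w : Δ, t0 • w ≠ w := by
      by_contra hcon
      push Not at hcon
      exact ht0ne (hfaith' t0 hcon)
    have h1 : ({w, t0 • w} : Set Δ) ⊆ (fixSet T x y)ᶜ := by
      intro v hv
      rcases hv with rfl | rfl
      · intro h2
        exact hw (h2 t0 ht0)
      · intro h2
        have h3 := h2 t0 ht0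
        rw [smul_left_cancel_iff] at h3
        exact hw h3
    have h2 : ({w, t0 • w} : Set Δ).ncard = 2 := Set.ncard_pair hw.symm
    have h3 := Set.ncard_le_ncard h1 (Set.toFinite _)
    have h4 := Set.ncard_add_ncard_compl (fixSet T x y)
    rw [Nat.card_coe_set_eq]
    omega
  have h5T : 5 ∣ Nat.card T := ⟨6 * Nat.card (pairStab T a b), by rw [hT30]; ring⟩
  have hsix := six_dvd (T := T) (Ω := Ω) (Δ := Δ) h6 hΩ hfaith hΔ ⟨x, y, hxy⟩ h5T
  have h30 : 30 ∣ Nat.card T := ⟨Nat.card (pairStab T a b), by rw [hT30]⟩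
  obtain ⟨hd1, hd2⟩ := hdvd
  generalize Nat.card (fixSet T x y) = f at *
  generalize Nat.card Δ = m at *
  generalize Nat.card (pairStab T x y) = u at *
  generalize Nat.card T = n at *
  have hn : n ≤ 720 := Nat.le_of_dvd (by norm_num) hdvd720
  have hm19 : m ≤ 19 := by
    by_contra hcon
    push Not at hcon
    have h1 : 20 * 19 ≤ m * (m - 1) := Nat.mul_le_mul (by omega) (by omega)
    have h2 : 20 * 19 * 2 ≤ m * (m - 1) * u := Nat.mul_le_mul h1 hu2
    omega
  -- numerical contradiction
  subst hTm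
  have hm5 : 5 ≤ m := by omega
  have hdu : m * (m - 1) ∣ 720 := (Dvd.intro _ rfl).trans hdvd720
  interval_cases m
  all_goals try (exfalso; revert hdu; decide)
  · -- m = 5
    have hff : f = 3 := by omega
    subst hff
    revert hd1; decide
  · -- m = 6
    have hff : f = 3 ∨ f = 4 := by omega
    rcases hff with rfl | rfl
    · revert hd2; decide
    · revert hd2; decide
  · -- m = 9
    have h9 := hsix (by decide)
    rcases h9 with h9 | h9
    · have h10 : 6 * 9 ∣ 720 := h9.trans hdvd720
      revert h10; decide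
    · revert h9; decide
  · -- m = 10
    have hff : f = 3 ∨ f = 4 ∨ f = 5 ∨ f = 6 ∨ f = 7 ∨ f = 8 := by omega
    rcases hff with rfl | rfl | rfl | rfl | rfl | rfl
    · revert hd2; decide
    · revert hd1; decide
    · revert hd2; decide
    · revert hd2; decide
    · revert hd2; decide
    · revert hd2; decide
  · -- m = 16
    have h9 := hsix (by decide)
    rcases h9 with h9 | h9
    · have h10 : 6 * 16 ∣ 720 := h9.trans hdvd720
      revert h10; decide
    · revert h9; decide

/-- The key lemma for actions with the same kernel. -/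
theorem key' {N : Type u} {Ω : Type v} {Δ : Type w} [Group N] [MulAction N Ω]
    [MulAction N Δ] (h6 : Nat.card Ω = 6) (hΩ : TwoTrans N Ω) (hΔ : TwoTrans N Δ)
    (hker : ∀ g : N, (∀ w : Ω, g • w = w) ↔ (∀ w : Δ, g • w = w))
    (x : Δ) (z : Equiv.Perm Δ) (hzx : z x = x)
    (hz : ∀ t : N, t • x = x → ∀ w, z (t • w) = t • z w) (y : Δ) : z y = y := by
  let K : Subgroup N := (toPermHom N Ω).ker
  let φ : N ⧸ K →* Equiv.Perm Ω := QuotientGroup.lift K (toPermHom N Ω) (fun g hg => hg)
  let ψ : N ⧸ K →* Equiv.Perm Δ := QuotientGroup.lift K (toPermHom N Δ) (by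
    intro g hg
    have h1 : ∀ w : Ω, g • w = w := fun w => congrArg (fun p : Equiv.Perm Ω => p w) hg
    have h2 := (hker g).1 h1
    ext w
    exact h2 w)
  let i1 : MulAction (N ⧸ K) Ω := MulAction.compHom Ω φ
  let i2 : MulAction (N ⧸ K) Δ := MulAction.compHom Δ ψ
  have e1 : ∀ (g : N) (w : Ω), (QuotientGroup.mk g : N ⧸ K) • w = g • w := fun g w => rfl
  have e2 : ∀ (g : N) (w : Δ), (QuotientGroup.mk g : N ⧸ K) • w = g • w := fun g w => rfl
  have hone : ∀ g : N, (∀ w : Ω, g • w = w) → (QuotientGroup.mk g : N ⧸ K) = 1 := by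
    intro g hg
    rw [QuotientGroup.eq_one_iff]
    change toPermHom N Ω g = 1
    ext w
    exact hg w
  refine key (T := N ⧸ K) (Ω := Ω) (Δ := Δ) h6 ?_ ?_ ?_ ?_ x z hzx ?_ y
  · intro a b a' b' hab hab'
    obtain ⟨t, ht1, ht2⟩ := hΩ a b a' b' hab hab'
    exact ⟨QuotientGroup.mk t, ht1, ht2⟩
  · intro t
    induction t using QuotientGroup.induction_on with
    | H g => exact fun hg => hone g hg
  · intro a b a' b' hab hab'
    obtain ⟨t, ht1, ht2⟩ := hΔ a b a' b' hab hab'
    exact ⟨QuotientGroup.mk t, ht1, ht2⟩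
  · intro t
    induction t using QuotientGroup.induction_on with
    | H g => exact fun hg => hone g ((hker g).2 hg)
  · intro t
    induction t using QuotientGroup.induction_on with
    | H g => exact fun hg w => hz g hg w

end DegreeSix

end Pool.Agent.Lib.MP_4dd1f4_al
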